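import Mathlib

/-! Commutative algebra for the verbally closed non-retract in a free metabelian group. -/

set_option autoImplicit false

namespace Pool.Agent.H259Z.VC

open Polynomial

/-- The value of a derivation on the element `c`, in terms of the values on generators. -/
def cform {Λ X : Type*} [CommRing Λ] [AddCommGroup X] [Module Λ X]
    (a0 a1 a2 t3 t4 t5 t6 : Λ) (d0 d1 d2 d3 d4 d5 : X) : X :=
  (t6 * (1 - a1) + (a0 * t3 ^ 2 - a0 ^ 2 * t3 ^ 2) * (1 - a2) + 2 * (1 - t3)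
      + (a1 - t4 ^ 2) * (1 - t4) + (a2 - t5 ^ 2) * (1 - t5)) • d0
    + ((a0 - 1) * t6) • d1 + ((a0 - 1) * (a0 * t3 ^ 2 - a0 ^ 2 * t3 ^ 2)) • d2
    + ((a0 - 1) * 2) • d3 + ((a0 - 1) * (a1 - t4 ^ 2)) • d4 + ((a0 - 1) * (a2 - t5 ^ 2)) • d5

theorem odd_order (Q : (ZMod 2)[X]) (hQ : Q ≠ 0) :
    ∃ N : ℕ, Odd N ∧ ∀ (K : Type) [Field K] [CharP K 2] (a : K), a ≠ 0 →
      Q.eval₂ (ZMod.castHom (dvd_refl 2) K) a = 0 → a ^ N = 1 := by
  have : Module.Finite (ZMod 2) (AdjoinRoot Q) := (AdjoinRoot.powerBasis hQ).finite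
  have : Finite (AdjoinRoot Q) := Module.finite_of_finite (ZMod 2)
  obtain ⟨i, j, hij, h⟩ := Finite.exists_ne_map_eq_of_infinite
    (fun i : ℕ => (AdjoinRoot.root Q) ^ i)
  wlog hlt : i < j generalizing i j
  · exact this j i hij.symm h.symm (by omega)
  obtain ⟨e, N, hN, he⟩ := Nat.exists_eq_two_pow_mul_odd (n := j - i) (by omega)
  refine ⟨N, hN, fun K _ _ a ha hroot => ?_⟩
  have h1 := congrArg (AdjoinRoot.lift (ZMod.castHom (dvd_refl 2) K) a hroot) h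
  simp only [map_pow, AdjoinRoot.lift_root] at h1
  have h2 : a ^ (j - i) = 1 := by
    have : a ^ i * a ^ (j - i) = a ^ i * 1 := by
      rw [← pow_add, mul_one, Nat.add_sub_cancel' hlt.le, h1]
    exact mul_left_cancel₀ (pow_ne_zero _ ha) this
  have h3 : (a ^ N - 1) ^ 2 ^ e = 0 := by
    have : Fact (Nat.Prime 2) := ⟨Nat.prime_two⟩
    rw [sub_pow_char_pow, one_pow, ← pow_mul, mul_comm, ← he, h2, sub_self]
  exact sub_eq_zero.1 (pow_eq_zero_iff (by positivity) |>.1 h3)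

/-- Kronecker substitution. -/
noncomputable def kron (n m : ℕ) : MvPolynomial (Fin 3) (ZMod 2) →ₐ[ZMod 2] (ZMod 2)[X] :=
  MvPolynomial.aeval ![X, X ^ (2 * n), X ^ (2 * m)]

theorem exists_kron (W : MvPolynomial (Fin 3) (ZMod 2)) (hW : W ≠ 0) :
    ∃ n m : ℕ, kron n m W ≠ 0 := by
  by_contra hcon
  push Not at hcon
  let κ : MvPolynomial (Fin 3) (ZMod 2) →ₐ[ZMod 2] MvPolynomial (Fin 2) (ZMod 2)[X] :=
    MvPolynomial.aeval ![MvPolynomial.C X, MvPolynomial.X 0, MvPolynomial.X 1]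
  let l : MvPolynomial (Fin 2) (ZMod 2)[X] →+* MvPolynomial (Fin 3) (ZMod 2) :=
    MvPolynomial.eval₂Hom (Polynomial.aeval (MvPolynomial.X 0 : MvPolynomial (Fin 3) (ZMod 2))).toRingHom
      ![MvPolynomial.X 1, MvPolynomial.X 2]
  have hl : ∀ p, l (κ p) = p := by
    intro p
    induction p using MvPolynomial.induction_on with
    | C a => simp [l, κ]
    | add p q hp hq => simp only [map_add, hp, hq]
    | mul_X p i hp =>
      rw [map_mul, map_mul, hp]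
      congr 1
      fin_cases i <;> simp [l, κ]
  have hinf : (Set.range (fun n : ℕ => (X : (ZMod 2)[X]) ^ (2 * n))).Infinite := by
    apply Set.infinite_range_of_injective
    intro n m h
    have := congrArg natDegree h
    simp at this
    omega
  have h0 : κ W = 0 := by
    apply MvPolynomial.funext_set (fun _ => Set.range (fun n : ℕ => (X : (ZMod 2)[X]) ^ (2 * n)))
      (fun _ => hinf)
    intro x hx
    obtain ⟨n, hn⟩ := hx 0 (Set.mem_univ _)
    obtain ⟨m, hm⟩ := hx 1 (Set.mem_univ _)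
    have key : ∀ p, MvPolynomial.eval x (κ p) = kron n m p := by
      intro p
      induction p using MvPolynomial.induction_on with
      | C a => simp [κ, kron]
      | add p q hp hq => simp only [map_add, hp, hq]
      | mul_X p i hp =>
        rw [map_mul, map_mul, map_mul, hp]
        congr 1
        fin_cases i <;> simp [κ, kron, ← hn, ← hm]
    rw [key, hcon, map_zero]
  apply hW
  rw [← hl W, h0, map_zero]

theorem eval_kron {Λ K : Type} [CommRing Λ] [Field K] [CharP K 2] (π : Λ →+* K) (a0 a1 a2 : Λ)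
    (n m : ℕ) (h1 : π a1 = π a0 ^ (2 * n)) (h2 : π a2 = π a0 ^ (2 * m))
    (P : MvPolynomial (Fin 3) ℤ) :
    π (MvPolynomial.aeval ![a0, a1, a2] P) =
      (kron n m (MvPolynomial.map (Int.castRingHom (ZMod 2)) P)).eval₂
        (ZMod.castHom (dvd_refl 2) K) (π a0) := by
  induction P using MvPolynomial.induction_on with
  | C a =>
    have := map_intCast (eval₂RingHom (ZMod.castHom (dvd_refl 2) K) (π a0)) a
    rw [coe_eval₂RingHom] at this
    simp [kron, this]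
  | add p q hp hq => simp only [map_add, hp, hq, eval₂_add]
  | mul_X p i hp =>
    rw [map_mul, map_mul, map_mul, map_mul, eval₂_mul, hp]
    congr 1
    fin_cases i <;> simp [kron, h1, h2]

/-- The main case: the triple is not divisible by two. -/
theorem alg_main {Λ : Type} [CommRing Λ] (a0 a1 a2 : Λ) (ha0 : IsUnit a0)
    (P : Fin 3 → MvPolynomial (Fin 3) ℤ)
    (hP : ∃ i, MvPolynomial.map (Int.castRingHom (ZMod 2)) (P i) ≠ 0) :
    ∃ n3 n4 n5 n6 : ℕ, ∃ s0 s1 s2 s3 s4 s5 : Λ,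
      MvPolynomial.aeval ![a0, a1, a2] (P 0) * s0 + MvPolynomial.aeval ![a0, a1, a2] (P 1) * s1
        + MvPolynomial.aeval ![a0, a1, a2] (P 2) *
          (cform a0 a1 a2 (a0 ^ n3) (a0 ^ n4) (a0 ^ n5) (a0 ^ n6) s0 s1 s2 s3 s4 s5 + 1 + s2)
          = 0 := by
  set v0 := MvPolynomial.aeval ![a0, a1, a2] (P 0) with hv0
  set v1 := MvPolynomial.aeval ![a0, a1, a2] (P 1) with hv1
  set v2 := MvPolynomial.aeval ![a0, a1, a2] (P 2) with hv2
  have step : ∃ n4 n5 n6 : ℕ, ∃ Q : (ZMod 2)[X], Q ≠ 0 ∧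
      ∀ (K : Type) [Field K] [CharP K 2] (π : Λ →+* K) (c0 : Λ),
        π a1 = π a0 ^ (2 * n4) → π a2 = π a0 ^ (2 * n5) → π (v0 + v2 * c0) = 0 →
        π (v1 + v2 * ((a0 - 1) * a0 ^ n6)) = 0 →
        Q.eval₂ (ZMod.castHom (dvd_refl 2) K) (π a0) = 0 := by
    by_cases h2 : MvPolynomial.map (Int.castRingHom (ZMod 2)) (P 2) = 0
    · have h01 : MvPolynomial.map (Int.castRingHom (ZMod 2)) (P 0) ≠ 0 ∨
          MvPolynomial.map (Int.castRingHom (ZMod 2)) (P 1) ≠ 0 := by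
        obtain ⟨i, hi⟩ := hP
        fin_cases i
        · exact Or.inl hi
        · exact Or.inr hi
        · exact absurd h2 hi
      rcases h01 with h | h
      · obtain ⟨n, m, hnm⟩ := exists_kron _ h
        refine ⟨n, m, 0, _, hnm, fun K _ _ π c0 e1 e2 g0 _ => ?_⟩
        have z2 : π v2 = 0 := by
          rw [hv2, eval_kron π a0 a1 a2 n m e1 e2, h2]; simp
        rw [← eval_kron π a0 a1 a2 n m e1 e2, ← hv0]
        simpa [z2] using g0
      · obtain ⟨n, m, hnm⟩ := exists_kron _ h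
        refine ⟨n, m, 0, _, hnm, fun K _ _ π c0 e1 e2 _ g1 => ?_⟩
        have z2 : π v2 = 0 := by
          rw [hv2, eval_kron π a0 a1 a2 n m e1 e2, h2]; simp
        rw [← eval_kron π a0 a1 a2 n m e1 e2, ← hv1]
        simpa [z2] using g1
    · obtain ⟨n, m, hnm⟩ := exists_kron _ h2
      set q1 := kron n m (MvPolynomial.map (Int.castRingHom (ZMod 2)) (P 1)) with hq1
      set q2 := kron n m (MvPolynomial.map (Int.castRingHom (ZMod 2)) (P 2)) with hq2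
      have hk : ∃ k : ℕ, q1 + q2 * ((X - 1) * X ^ k) ≠ 0 := by
        by_contra hcon
        push Not at hcon
        have e0 := hcon 0
        have e1 := hcon 1
        have hX : (X - 1 : (ZMod 2)[X]) ≠ 0 := X_sub_C_ne_zero 1
        have : q2 * ((X - 1) * (X - 1)) = 0 := by linear_combination e1 - e0
        exact mul_ne_zero hnm (mul_ne_zero hX hX) this
      obtain ⟨k, hk⟩ := hk
      refine ⟨n, m, k, _, hk, fun K _ _ π c0 e1 e2 _ g1 => ?_⟩
      rw [eval₂_add, eval₂_mul, hq1, hq2, ← eval_kron π a0 a1 a2 n m e1 e2,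
        ← eval_kron π a0 a1 a2 n m e1 e2, ← hv1, ← hv2]
      simpa [eval₂_sub, eval₂_pow] using g1
  obtain ⟨n4, n5, n6, Q, hQ, hK⟩ := step
  obtain ⟨N, ⟨n3, rfl⟩, hN⟩ := odd_order Q hQ
  refine ⟨n3, n4, n5, n6, ?_⟩
  set c0 : Λ := (a0 ^ n6 * (1 - a1) + (a0 * (a0 ^ n3) ^ 2 - a0 ^ 2 * (a0 ^ n3) ^ 2) * (1 - a2)
      + 2 * (1 - a0 ^ n3) + (a1 - (a0 ^ n4) ^ 2) * (1 - a0 ^ n4)
      + (a2 - (a0 ^ n5) ^ 2) * (1 - a0 ^ n5)) with hc0
  let gen : Fin 6 → Λ := ![v0 + v2 * c0, v1 + v2 * ((a0 - 1) * a0 ^ n6),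
    1 + (a0 - 1) * (a0 * (a0 ^ n3) ^ 2 - a0 ^ 2 * (a0 ^ n3) ^ 2), (a0 - 1) * 2,
    (a0 - 1) * (a1 - (a0 ^ n4) ^ 2), (a0 - 1) * (a2 - (a0 ^ n5) ^ 2)]
  have htop : Ideal.span (Set.range gen) = ⊤ := by
    by_contra hne
    obtain ⟨m, hm, hle⟩ := Ideal.exists_le_maximal _ hne
    let : Field (Λ ⧸ m) := Ideal.Quotient.field m
    let π : Λ →+* Λ ⧸ m := Ideal.Quotient.mk m
    have hz : ∀ i, π (gen i) = 0 := fun i =>
      Ideal.Quotient.eq_zero_iff_mem.2 (hle (Ideal.subset_span ⟨i, rfl⟩))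
    have z0 : π (v0 + v2 * c0) = 0 := hz 0
    have z1 : π (v1 + v2 * ((a0 - 1) * a0 ^ n6)) = 0 := hz 1
    have z2 : π (1 + (a0 - 1) * (a0 * (a0 ^ n3) ^ 2 - a0 ^ 2 * (a0 ^ n3) ^ 2)) = 0 := hz 2
    have z3 : π ((a0 - 1) * 2) = 0 := hz 3
    have z4 : π ((a0 - 1) * (a1 - (a0 ^ n4) ^ 2)) = 0 := hz 4
    have z5 : π ((a0 - 1) * (a2 - (a0 ^ n5) ^ 2)) = 0 := hz 5
    simp only [map_add, map_mul, map_sub, map_pow, map_one, map_ofNat] at z2 z3 z4 z5
    have hα : π a0 - 1 ≠ 0 := by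
      intro h
      rw [h] at z2
      simp at z2
    have h2 : (2 : Λ ⧸ m) = 0 := (mul_eq_zero.1 z3).resolve_left hα
    have : CharP (Λ ⧸ m) 2 := CharTwo.of_one_ne_zero_of_two_eq_zero one_ne_zero h2
    have e1 : π a1 = π a0 ^ (2 * n4) := by
      have := (mul_eq_zero.1 z4).resolve_left hα
      rw [mul_comm, pow_mul]; exact sub_eq_zero.1 this
    have e2 : π a2 = π a0 ^ (2 * n5) := by
      have := (mul_eq_zero.1 z5).resolve_left hα
      rw [mul_comm, pow_mul]; exact sub_eq_zero.1 this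
    have ha : π a0 ≠ 0 := (ha0.map π).ne_zero
    have hpow := hN _ (π a0) ha (hK _ π c0 e1 e2 z0 z1)
    have : π a0 ^ 2 = 0 := by
      have e3 : π a0 * (π a0 ^ n3) ^ 2 = 1 := by rw [← hpow]; ring
      linear_combination (-1 : Λ ⧸ m) * z2 - ((π a0 - 1) ^ 2) * e3 + (π a0) * h2
    exact ha (pow_eq_zero_iff (by norm_num) |>.1 this)
  have h1 : (1 : Λ) ∈ Ideal.span (Set.range gen) := htop ▸ Submodule.mem_top
  obtain ⟨c, hc⟩ := (Submodule.mem_span_range_iff_exists_fun Λ).1 h1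
  simp only [Fin.sum_univ_six, smul_eq_mul, gen] at hc
  simp only [Matrix.cons_val_zero, Matrix.cons_val_one, Matrix.cons_val] at hc
  refine ⟨-(c 0) * v2, -(c 1) * v2, -(c 2), -(c 3), -(c 4), -(c 5), ?_⟩
  simp only [cform, smul_eq_mul]
  rw [← hc0]
  linear_combination (-v2) * hc

theorem alg_all {Λ : Type} [CommRing Λ] (a0 a1 a2 : Λ) (ha0 : IsUnit a0)
    (P : Fin 3 → MvPolynomial (Fin 3) ℤ) :
    ∃ n3 n4 n5 n6 : ℕ, ∃ s0 s1 s2 s3 s4 s5 : Λ,
      MvPolynomial.aeval ![a0, a1, a2] (P 0) * s0 + MvPolynomial.aeval ![a0, a1, a2] (P 1) * s1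
        + MvPolynomial.aeval ![a0, a1, a2] (P 2) *
          (cform a0 a1 a2 (a0 ^ n3) (a0 ^ n4) (a0 ^ n5) (a0 ^ n6) s0 s1 s2 s3 s4 s5 + 1 + s2)
          = 0 := by
  by_cases h0 : P 2 = 0
  · exact ⟨0, 0, 0, 0, 0, 0, 0, 0, 0, 0, by simp [h0]⟩
  have hfin : ∃ n : ℕ, ¬ (2 : MvPolynomial (Fin 3) ℤ) ^ n ∣ P 2 := by
    have hnu : ¬ IsUnit (2 : MvPolynomial (Fin 3) ℤ) := by
      intro h
      have := h.map (MvPolynomial.eval (fun _ => (0 : ℤ)))
      simp only [map_ofNat] at this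
      rcases Int.isUnit_iff.1 this with h | h <;> omega
    obtain ⟨n, hn⟩ := FiniteMultiplicity.of_not_isUnit hnu h0
    exact ⟨n + 1, hn⟩
  obtain ⟨n, hn⟩ := hfin
  clear h0
  induction n generalizing P with
  | zero => simp at hn
  | succ n ih =>
    by_cases hP : ∃ i, MvPolynomial.map (Int.castRingHom (ZMod 2)) (P i) ≠ 0
    · exact alg_main a0 a1 a2 ha0 P hP
    push Not at hP
    have hd : ∀ i, ∃ Q, P i = 2 * Q := fun i => by
      have := (MvPolynomial.C_dvd_iff_zmod 2 (P i)).2 (hP i)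
      have h' : (2 : MvPolynomial (Fin 3) ℤ) ∣ P i := by simpa using this
      exact h'
    choose Q hQ using hd
    obtain ⟨n3, n4, n5, n6, s0, s1, s2, s3, s4, s5, h⟩ := ih Q (by
      intro hdvd
      apply hn
      rw [hQ 2, pow_succ']
      exact mul_dvd_mul_left _ hdvd)
    refine ⟨n3, n4, n5, n6, s0, s1, s2, s3, s4, s5, ?_⟩
    rw [hQ 0, hQ 1, hQ 2]
    simp only [map_mul, map_ofNat]
    linear_combination 2 * h

/-- The algebraic closure of the field with two elements. -/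
abbrev K2 := AlgebraicClosure (ZMod 2)

theorem trinomial_nat (m n : ℕ) (hm : 0 < m) (hmn : m < n) :
    ∃ u : K2, u ≠ 0 ∧ 1 + u ^ m + u ^ n = 0 := by
  have hdeg : (1 + X ^ m + X ^ n : K2[X]).degree = n := by
    rw [degree_add_eq_right_of_degree_lt] <;> rw [degree_X_pow]
    refine lt_of_le_of_lt (degree_add_le _ _) (max_lt ?_ ?_)
    · rw [degree_one]; exact_mod_cast (by omega : 0 < n)
    · rw [degree_X_pow]; exact_mod_cast hmn
  obtain ⟨u, hu⟩ := IsAlgClosed.exists_root (1 + X ^ m + X ^ n : K2[X]) (by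
    rw [hdeg]; exact_mod_cast (by omega : n ≠ 0))
  have hu' : 1 + u ^ m + u ^ n = 0 := by simpa [IsRoot] using hu
  refine ⟨u, ?_, hu'⟩
  rintro rfl
  rw [zero_pow hm.ne', zero_pow (by omega)] at hu'
  simp at hu'

theorem trinomial_sorted (x y z : ℤ) (hxy : x < y) (hyz : y < z) :
    ∃ u : K2, u ≠ 0 ∧ u ^ x + u ^ y + u ^ z = 0 := by
  obtain ⟨u, hu, h⟩ := trinomial_nat (y - x).toNat (z - x).toNat (by omega) (by omega)
  refine ⟨u, hu, ?_⟩
  have e1 : u ^ y = u ^ x * u ^ (y - x).toNat := by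
    rw [← zpow_natCast, ← zpow_add₀ hu]; congr 1; omega
  have e2 : u ^ z = u ^ x * u ^ (z - x).toNat := by
    rw [← zpow_natCast, ← zpow_add₀ hu]; congr 1; omega
  rw [e1, e2]
  linear_combination (u ^ x) * h

theorem trinomial (x y z : ℤ) (hxy : x ≠ y) (hyz : y ≠ z) (hxz : x ≠ z) :
    ∃ u : K2, u ≠ 0 ∧ u ^ x + u ^ y + u ^ z = 0 := by
  rcases lt_or_gt_of_ne hxy with h1 | h1 <;> rcases lt_or_gt_of_ne hyz with h2 | h2 <;>
    rcases lt_or_gt_of_ne hxz with h3 | h3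
  · exact trinomial_sorted x y z h1 h2
  · omega
  · obtain ⟨u, hu, h⟩ := trinomial_sorted x z y h3 h2
    exact ⟨u, hu, by linear_combination h⟩
  · obtain ⟨u, hu, h⟩ := trinomial_sorted z x y h3 h1
    exact ⟨u, hu, by linear_combination h⟩
  · obtain ⟨u, hu, h⟩ := trinomial_sorted y x z h1 h3
    exact ⟨u, hu, by linear_combination h⟩
  · obtain ⟨u, hu, h⟩ := trinomial_sorted y z x h2 h3
    exact ⟨u, hu, by linear_combination h⟩
  · omega
  · obtain ⟨u, hu, h⟩ := trinomial_sorted z y x h2 h1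
    exact ⟨u, hu, by linear_combination h⟩

/-- For all exponent vectors there is a point of the degeneracy locus. -/
theorem exists_point (i3 j3 k3 i4 j4 k4 i5 j5 k5 : ℤ) :
    ∃ a0 a1 a2 : K2ˣ,
      (a1 : K2) = ((a0 ^ i4 * a1 ^ j4 * a2 ^ k4 : K2ˣ) : K2) ^ 2 ∧
      (a2 : K2) = ((a0 ^ i5 * a1 ^ j5 * a2 ^ k5 : K2ˣ) : K2) ^ 2 ∧
      ((a0 : K2) - 1) ^ 2 * a0 * ((a0 ^ i3 * a1 ^ j3 * a2 ^ k3 : K2ˣ) : K2) ^ 2 = 1 := by
  set D : ℤ := (1 - 2 * j4) * (1 - 2 * k5) - 4 * k4 * j5 with hD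
  set E : ℤ := 2 * i4 * (1 - 2 * k5) + 4 * k4 * i5 with hE
  set E' : ℤ := 2 * i5 * (1 - 2 * j4) + 4 * j5 * i4 with hE'
  set e : ℤ := D * i3 + E * j3 + E' * k3 with he
  have hDodd : ∃ r : ℤ, D = 2 * r + 1 := ⟨-j4 - k5 + 2 * j4 * k5 - 2 * k4 * j5, by rw [hD]; ring⟩
  obtain ⟨r, hr⟩ := hDodd
  obtain ⟨u, hu, h⟩ := trinomial 0 (D + 2 * e) (3 * D + 2 * e) (by omega) (by omega) (by omega)
  let U : K2ˣ := Units.mk0 u hu
  have hU : ∀ a b c : ℤ, (U ^ D) ^ a * (U ^ E) ^ b * (U ^ E') ^ c = U ^ (D * a + E * b + E' * c) := by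
    intro a b c
    rw [← zpow_mul, ← zpow_mul, ← zpow_mul, ← zpow_add, ← zpow_add]
  refine ⟨U ^ D, U ^ E, U ^ E', ?_, ?_, ?_⟩
  · rw [hU, ← Units.val_pow_eq_pow_val, ← zpow_natCast, ← zpow_mul]
    congr 2
    rw [hD, hE, hE']; push_cast; ring
  · rw [hU, ← Units.val_pow_eq_pow_val, ← zpow_natCast, ← zpow_mul]
    congr 2
    rw [hD, hE, hE']; push_cast; ring
  · rw [hU, ← he]
    simp only [Units.val_zpow_eq_zpow_val, U, Units.val_mk0]
    have h2 : (2 : K2) = 0 := CharTwo.two_eq_zero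
    have e1 : u ^ (D + 2 * e) = u ^ D * (u ^ e) ^ 2 := by
      rw [zpow_add₀ hu, ← zpow_natCast, ← zpow_mul]; congr 2; push_cast; ring
    have e2 : u ^ (3 * D + 2 * e) = (u ^ D) ^ 3 * (u ^ e) ^ 2 := by
      rw [zpow_add₀ hu, ← zpow_natCast, ← zpow_natCast, ← zpow_mul, ← zpow_mul]
      congr 2 <;> push_cast <;> ring
    rw [e1, e2, zpow_zero] at h
    linear_combination h - (1 + (u ^ D) ^ 2 * (u ^ e) ^ 2) * h2

end Pool.Agent.H259Z.VC
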