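import Pool.Agent.H259Z.VC.Alg

/-! Group theory for the verbally closed non-retract in the free metabelian group of rank 7. -/

set_option autoImplicit false

namespace Pool.Agent.H259Z.VC

open scoped commutatorElement

section Deriv

variable {Γ Λ X : Type*} [Group Γ] [CommRing Λ] [AddCommGroup X] [Module Λ X]

/-- `D` is a derivation with respect to the character `ρ`. -/
def IsDer (ρ : Γ →* Λ) (D : Γ → X) : Prop := ∀ p q, D (p * q) = D p + ρ p • D q

variable {ρ : Γ →* Λ} {D : Γ → X}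

theorem IsDer.one (h : IsDer ρ D) : D 1 = 0 := by
  have := h 1 1
  simpa using this

theorem rho_inv (ρ : Γ →* Λ) (p : Γ) : ρ p * ρ p⁻¹ = 1 := by
  rw [← map_mul, mul_inv_cancel, map_one]

theorem IsDer.inv (h : IsDer ρ D) (p : Γ) : D p⁻¹ = -(ρ p⁻¹ • D p) := by
  have := h p⁻¹ p
  rw [inv_mul_cancel, h.one] at this
  exact eq_neg_of_add_eq_zero_left this.symm

theorem IsDer.mul_ker (h : IsDer ρ D) {n : Γ} (hn : ρ n = 1) (q : Γ) : D (n * q) = D n + D q := by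
  rw [h, hn, one_smul]

theorem rho_inv_ker {n : Γ} (hn : ρ n = 1) : ρ n⁻¹ = 1 := by
  have := rho_inv ρ n
  rwa [hn, one_mul] at this

theorem IsDer.inv_ker (h : IsDer ρ D) {n : Γ} (hn : ρ n = 1) : D n⁻¹ = -D n := by
  rw [h.inv, rho_inv_ker hn, one_smul]

theorem rho_conj {n : Γ} (hn : ρ n = 1) (g : Γ) : ρ (g * n * g⁻¹) = 1 := by
  rw [map_mul, map_mul, hn, mul_one, rho_inv]

theorem IsDer.conj (h : IsDer ρ D) {n : Γ} (hn : ρ n = 1) (g : Γ) :
    D (g * n * g⁻¹) = ρ g • D n := by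
  rw [h, h, h.inv, map_mul, hn, mul_one, smul_neg, smul_smul, rho_inv, one_smul]
  abel

theorem rho_comm (ρ : Γ →* Λ) (p q : Γ) : ρ ⁅p, q⁆ = 1 := by
  rw [commutatorElement_def, map_mul, map_mul, map_mul]
  have h1 := rho_inv ρ p
  have h2 := rho_inv ρ q
  linear_combination (ρ q * ρ q⁻¹) * h1 + h2

theorem IsDer.comm (h : IsDer ρ D) (p q : Γ) :
    D ⁅p, q⁆ = (1 - ρ q) • D p + (ρ p - 1) • D q := by
  rw [commutatorElement_def, h, h, h, h.inv, h.inv, smul_neg, smul_neg, smul_smul, smul_smul]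
  have h1 := rho_inv ρ p
  have h2 := rho_inv ρ q
  have e1 : ρ (p * q) * ρ p⁻¹ = ρ q := by rw [map_mul]; linear_combination (ρ q) * h1
  have e2 : ρ (p * q * p⁻¹) * ρ q⁻¹ = 1 := by
    rw [map_mul, e1, h2]
  rw [e1, e2]
  module

/-- The element `c`, a product of conjugates of commutators. -/
def cw (x : Fin 7 → Γ) : Γ :=
  (x 6 * ⁅x 0, x 1⁆ * (x 6)⁻¹) *
  ((x 0 * x 3 * x 3 * ⁅x 0, x 2⁆ * (x 0 * x 3 * x 3)⁻¹) *
  ((x 0 * x 0 * x 3 * x 3 * ⁅x 0, x 2⁆ * (x 0 * x 0 * x 3 * x 3)⁻¹)⁻¹ *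
  (⁅x 0, x 3⁆ * (⁅x 0, x 3⁆ *
  ((x 1 * ⁅x 0, x 4⁆ * (x 1)⁻¹) *
  ((x 4 * x 4 * ⁅x 0, x 4⁆ * (x 4 * x 4)⁻¹)⁻¹ *
  ((x 2 * ⁅x 0, x 5⁆ * (x 2)⁻¹) *
  (x 5 * x 5 * ⁅x 0, x 5⁆ * (x 5 * x 5)⁻¹)⁻¹)))))))

theorem cw_mem (x : Fin 7 → Γ) : cw x ∈ commutator Γ := by
  have hc : ∀ p q : Γ, ⁅p, q⁆ ∈ commutator Γ := fun p q =>
    Subgroup.commutator_mem_commutator (Subgroup.mem_top _) (Subgroup.mem_top _)
  have hj : ∀ g p q : Γ, g * ⁅p, q⁆ * g⁻¹ ∈ commutator Γ := fun g p q =>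
    (inferInstance : (commutator Γ).Normal).conj_mem _ (hc p q) g
  unfold cw
  exact mul_mem (hj _ _ _) (mul_mem (hj _ _ _) (mul_mem (inv_mem (hj _ _ _)) (mul_mem (hc _ _)
    (mul_mem (hc _ _) (mul_mem (hj _ _ _) (mul_mem (inv_mem (hj _ _ _)) (mul_mem (hj _ _ _)
      (inv_mem (hj _ _ _)))))))))

theorem rho_commutator {C : Type*} [CommMonoid C] (ρ : Γ →* C) {n : Γ} (hn : n ∈ commutator Γ) :
    ρ n = 1 := by
  have h := Abelianization.commutator_subset_ker ρ.toHomUnits hn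
  rw [MonoidHom.mem_ker] at h
  have := congrArg Units.val h
  simpa using this

theorem IsDer.cw (h : IsDer ρ D) (x : Fin 7 → Γ) :
    D (cw x) = cform (ρ (x 0)) (ρ (x 1)) (ρ (x 2)) (ρ (x 3)) (ρ (x 4)) (ρ (x 5)) (ρ (x 6))
      (D (x 0)) (D (x 1)) (D (x 2)) (D (x 3)) (D (x 4)) (D (x 5)) := by
  have hc : ∀ p q : Γ, ρ ⁅p, q⁆ = 1 := rho_comm ρ
  have hj : ∀ g p q : Γ, ρ (g * ⁅p, q⁆ * g⁻¹) = 1 := fun g p q => rho_conj (hc p q) g
  unfold VC.cw
  rw [h.mul_ker (hj _ _ _), h.mul_ker (hj _ _ _), h.mul_ker (rho_inv_ker (hj _ _ _)),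
    h.mul_ker (hc _ _), h.mul_ker (hc _ _), h.mul_ker (hj _ _ _),
    h.mul_ker (rho_inv_ker (hj _ _ _)), h.mul_ker (hj _ _ _)]
  simp only [h.inv_ker (hj _ _ _), h.conj (hc _ _), h.comm, map_mul, cform]
  module

end Deriv

/-- The free metabelian group of rank 7. -/
abbrev G := FreeGroup (Fin 7) ⧸ derivedSeries (FreeGroup (Fin 7)) 2

/-- The generators. -/
def x (j : Fin 7) : G := QuotientGroup.mk (FreeGroup.of j)

theorem G_metab : derivedSeries G 2 = ⊥ := by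
  rw [← map_derivedSeries_eq (QuotientGroup.mk'_surjective
    (derivedSeries (FreeGroup (Fin 7)) 2)) 2]
  exact QuotientGroup.map_mk'_self _

theorem exists_hom {M : Type*} [Group M] (hM : derivedSeries M 2 = ⊥) (z : Fin 7 → M) :
    ∃ φ : G →* M, ∀ j, φ (x j) = z j := by
  refine ⟨QuotientGroup.lift _ (FreeGroup.lift z) ?_, fun j => ?_⟩
  · intro g hg
    have := map_derivedSeries_le_derivedSeries (FreeGroup.lift z) 2 (Subgroup.mem_map_of_mem _ hg)
    rw [hM] at this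
    exact this
  · exact (QuotientGroup.lift_mk' _ _ _).trans FreeGroup.lift_apply_of

theorem hom_ext {M : Type*} [Monoid M] {f g : G →* M} (h : ∀ j, f (x j) = g (x j)) : f = g := by
  apply QuotientGroup.monoidHom_ext
  apply FreeGroup.ext_hom
  intro j
  exact h j

theorem mem_of_gen (K : Subgroup G) (φ : G →* G) (h : ∀ j, φ (x j) ∈ K) (g : G) : φ g ∈ K := by
  induction g using QuotientGroup.induction_on with
  | H w =>
    induction w using FreeGroup.induction_on with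
    | C1 => rw [QuotientGroup.mk_one, map_one]; exact K.one_mem
    | of j => exact h j
    | inv_of j hj => rw [QuotientGroup.mk_inv, map_inv]; exact K.inv_mem hj
    | mul a b ha hb => rw [QuotientGroup.mk_mul, map_mul]; exact K.mul_mem ha hb

theorem N_comm {a b : G} (ha : a ∈ commutator G) (hb : b ∈ commutator G) : a * b = b * a := by
  have : ⁅a, b⁆ ∈ derivedSeries G 2 :=
    Subgroup.commutator_mem_commutator (H₁ := commutator G) (H₂ := commutator G) ha hb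
  rw [G_metab, Subgroup.mem_bot] at this
  exact commutatorElement_eq_one_iff_mul_comm.1 this

/-- The third generator of `H`. -/
def y : G := cw x * x 2

/-- The generators of `H`. -/
def Y : Fin 3 → G := ![x 0, x 1, y]

/-- The subgroup `H`. -/
def H : Subgroup G := (FreeGroup.lift Y).range

theorem Y_mem (i : Fin 3) : Y i ∈ H := ⟨FreeGroup.of i, by simp⟩
theorem x0_mem : x 0 ∈ H := Y_mem 0
theorem x1_mem : x 1 ∈ H := Y_mem 1
theorem y_mem : y ∈ H := Y_mem 2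

/-! ### Not a retract -/

/-- The affine group of a field. -/
@[ext] structure Aff (K : Type) [Field K] where
  t : K
  m : Kˣ

instance (K : Type) [Field K] : Group (Aff K) where
  mul a b := ⟨a.t + a.m * b.t, a.m * b.m⟩
  one := ⟨0, 1⟩
  inv a := ⟨-((a.m⁻¹ : Kˣ) * a.t), a.m⁻¹⟩
  mul_assoc a b c := by
    apply Aff.ext
    · change a.t + a.m * b.t + ((a.m * b.m : Kˣ) : K) * c.t = a.t + a.m * (b.t + b.m * c.t)
      push_cast; ring
    · exact mul_assoc _ _ _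
  one_mul a := by
    apply Aff.ext
    · change 0 + ((1 : Kˣ) : K) * a.t = a.t
      simp
    · exact one_mul _
  mul_one a := by
    apply Aff.ext
    · change a.t + a.m * 0 = a.t
      simp
    · exact mul_one _
  inv_mul_cancel a := by
    apply Aff.ext
    · change -((a.m⁻¹ : Kˣ) * a.t) + (a.m⁻¹ : Kˣ) * a.t = 0
      simp
    · exact inv_mul_cancel _

theorem Aff.mul_t {K : Type} [Field K] (a b : Aff K) : (a * b).t = a.t + a.m * b.t := rfl
theorem Aff.mul_m {K : Type} [Field K] (a b : Aff K) : (a * b).m = a.m * b.m := rfl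

/-- The linear part. -/
def Aff.lin (K : Type) [Field K] : Aff K →* Kˣ where
  toFun a := a.m
  map_one' := rfl
  map_mul' _ _ := rfl

theorem Aff.metab (K : Type) [Field K] : derivedSeries (Aff K) 2 = ⊥ := by
  rw [derivedSeries_succ, derivedSeries_one, Subgroup.commutator_eq_bot_iff_le_centralizer]
  intro a ha
  rw [Subgroup.mem_centralizer_iff]
  intro b hb
  have h1 : a.m = 1 := rho_commutator (Aff.lin K) ha
  have h2 : b.m = 1 := rho_commutator (Aff.lin K) hb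
  apply Aff.ext
  · simp [Aff.mul_t, h1, h2, add_comm]
  · simp [Aff.mul_m, h1, h2]

theorem char_on_H {h : G} (hh : h ∈ H) : ∃ i j k : ℤ, ∀ χ : G →* K2ˣ,
    χ h = χ (x 0) ^ i * χ (x 1) ^ j * χ (x 2) ^ k := by
  obtain ⟨w, rfl⟩ := hh
  induction w using FreeGroup.induction_on with
  | C1 => exact ⟨0, 0, 0, fun χ => by simp⟩
  | of i =>
    fin_cases i
    · exact ⟨1, 0, 0, fun χ => by simp [Y]⟩
    · exact ⟨0, 1, 0, fun χ => by simp [Y]⟩
    · exact ⟨0, 0, 1, fun χ => by simp [Y, y, rho_commutator χ (cw_mem x)]⟩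
  | inv_of i hi =>
    obtain ⟨a, b, c, h⟩ := hi
    refine ⟨-a, -b, -c, fun χ => ?_⟩
    rw [map_inv, map_inv, h]
    simp only [zpow_neg, mul_inv]
  | mul p q hp hq =>
    obtain ⟨a, b, c, h⟩ := hp
    obtain ⟨a', b', c', h'⟩ := hq
    refine ⟨a + a', b + b', c + c', fun χ => ?_⟩
    rw [map_mul, map_mul, h, h']
    simp only [zpow_add]
    ac_rfl

theorem not_retract : ¬ ∃ f : G →* G, (∀ g, f g ∈ H) ∧ ∀ h ∈ H, f h = h := by
  rintro ⟨f, hf, hfix⟩
  obtain ⟨i3, j3, k3, h3⟩ := char_on_H (hf (x 3))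
  obtain ⟨i4, j4, k4, h4⟩ := char_on_H (hf (x 4))
  obtain ⟨i5, j5, k5, h5⟩ := char_on_H (hf (x 5))
  obtain ⟨a0, a1, a2, e1, e2, e3⟩ := exists_point i3 j3 k3 i4 j4 k4 i5 j5 k5
  set τ : K2ˣ := a0 ^ i3 * a1 ^ j3 * a2 ^ k3 with hτ
  obtain ⟨θ, hθ⟩ := exists_hom (Aff.metab K2)
    ![⟨0, a0⟩, ⟨0, a1⟩, ⟨1, a2⟩, ⟨0, τ * a0⟩, ⟨0, 1⟩, ⟨0, 1⟩, ⟨0, 1⟩]
  let χu : G →* K2ˣ := (Aff.lin K2).comp θ
  let χ : G →* K2 := (Units.coeHom K2).comp χu
  let D : G → K2 := fun g => (θ g).t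
  have hD : IsDer χ D := fun p q => by
    simp only [D, χ, χu, map_mul, Aff.mul_t, smul_eq_mul]
    rfl
  have hD' : IsDer (χ.comp f) (fun g => D (f g)) := fun p q => by
    simp only [map_mul, MonoidHom.comp_apply]
    exact hD _ _
  have c0 : χu (x 0) = a0 := by simp [χu, hθ, Aff.lin]
  have c1 : χu (x 1) = a1 := by simp [χu, hθ, Aff.lin]
  have c2 : χu (x 2) = a2 := by simp [χu, hθ, Aff.lin]
  have c3 : χu (x 3) = τ * a0 := by simp [χu, hθ, Aff.lin]
  have hχ : ∀ g, χ g = (χu g : K2) := fun g => rfl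
  have h2 : (2 : K2) = 0 := CharTwo.two_eq_zero
  have d0 : D (x 0) = 0 := by simp [D, hθ]
  have d1 : D (x 1) = 0 := by simp [D, hθ]
  have d2 : D (x 2) = 1 := by simp [D, hθ]
  have d3 : D (x 3) = 0 := by simp [D, hθ]
  have d4 : D (x 4) = 0 := by simp [D, hθ]
  have d5 : D (x 5) = 0 := by simp [D, hθ]
  have hy : D y = ((a0 : K2) - 1) ^ 2 := by
    rw [y, hD.mul_ker (rho_commutator χ (cw_mem x)), hD.cw, d0, d1, d2, d3, d4, d5]
    simp only [cform, smul_eq_mul, hχ, c0, c3, Units.val_mul]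
    linear_combination (-(a0 : K2) ^ 2) * e3 + ((a0 : K2) - (a0 : K2) ^ 2) * h2
  have f0 : f (x 0) = x 0 := hfix _ x0_mem
  have f1 : f (x 1) = x 1 := hfix _ x1_mem
  have fy : f y = y := hfix _ y_mem
  have f2 : χ (f (x 2)) = a2 := by
    have e : χ (f y) = χ y := by rw [fy]
    have e' : (χ.comp f) (cw x) = 1 := rho_commutator _ (cw_mem x)
    rw [MonoidHom.comp_apply] at e'
    rw [y, map_mul, map_mul, map_mul, e', rho_commutator χ (cw_mem x), one_mul, one_mul] at e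
    rw [e, hχ, c2]
  have hy' : D (f y) = 0 := by
    have := hD'.mul_ker (rho_commutator (χ.comp f) (cw_mem x)) (x 2)
    have hc := hD'.cw x
    rw [y, this, hc]
    simp only [MonoidHom.comp_apply, f0, f1, f2, d0, d1, cform, smul_eq_mul]
    rw [hχ (f (x 3)), hχ (f (x 4)), hχ (f (x 5)), h3, h4, h5, hχ (x 0), hχ (x 1), c0, c1, c2,
      ← hτ, ← e1, ← e2]
    linear_combination (-D (f (x 2))) * e3 + (((a0 : K2) - 1) * D (f (x 3))) * h2
  rw [fy, hy] at hy'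
  rw [hy'] at e3
  simp at e3

end Pool.Agent.H259Z.VC
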