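import Pool.Agent.H259Z.VC.Grp

/-! Every element of `H` is fixed by an endomorphism with image in `H`. -/

set_option autoImplicit false

namespace Pool.Agent.H259Z.VC

open scoped commutatorElement

/-- The derived subgroup, written additively. -/
def M : Type := Additive (commutator G)

instance instAddGroupM : AddGroup M := inferInstanceAs (AddGroup (Additive (commutator G)))

instance : AddCommGroup M :=
  { instAddGroupM with
    add_comm := fun a b => Subtype.ext (N_comm (Additive.toMul a).2 (Additive.toMul b).2) }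

/-- The underlying group element. -/
def M.val (m : M) : G := (Additive.toMul (α := commutator G) m : commutator G)

/-- Constructor. -/
def M.mk (g : G) (hg : g ∈ commutator G) : M := Additive.ofMul (α := commutator G) ⟨g, hg⟩

@[simp] theorem M.val_mk (g : G) (hg : g ∈ commutator G) : (M.mk g hg).val = g := rfl
theorem M.val_mem (m : M) : m.val ∈ commutator G := (Additive.toMul (α := commutator G) m).2
theorem M.val_add (a b : M) : (a + b).val = a.val * b.val := rfl
theorem M.val_zero : (0 : M).val = 1 := rfl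
theorem M.val_neg (a : M) : (-a).val = a.val⁻¹ := rfl
theorem M.ext {a b : M} (h : a.val = b.val) : a = b := Subtype.ext h

/-- Conjugation as an additive endomorphism. -/
def cjE (g : G) : AddMonoid.End M where
  toFun m := M.mk (g * m.val * g⁻¹) ((inferInstance : (commutator G).Normal).conj_mem _ m.val_mem g)
  map_zero' := M.ext (by simp [M.val_zero])
  map_add' a b := M.ext (by simp [M.val_add])

theorem cjE_val (g : G) (m : M) : (cjE g m).val = g * m.val * g⁻¹ := rfl

/-- Conjugation as a monoid homomorphism. -/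
def cj : G →* AddMonoid.End M where
  toFun := cjE
  map_one' := AddMonoidHom.ext fun m => M.ext (by
    change 1 * m.val * 1⁻¹ = m.val
    group)
  map_mul' g h := AddMonoidHom.ext fun m => M.ext (by
    change g * h * m.val * (g * h)⁻¹ = g * (h * m.val * h⁻¹) * g⁻¹
    group)

theorem cj_val (g : G) (m : M) : (cj g m).val = g * m.val * g⁻¹ := rfl

theorem cj_of_mem {n : G} (hn : n ∈ commutator G) : cj n = 1 :=
  AddMonoidHom.ext fun m => M.ext (by
    change n * m.val * n⁻¹ = m.val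
    rw [N_comm hn m.val_mem]
    group)

theorem cj_comm (g h : G) : cj g * cj h = cj h * cj g := by
  have hc : ⁅g, h⁆ ∈ commutator G :=
    Subgroup.commutator_mem_commutator (Subgroup.mem_top _) (Subgroup.mem_top _)
  have e : g * h = ⁅g, h⁆ * (h * g) := by rw [commutatorElement_def]; group
  rw [← map_mul, e, map_mul, cj_of_mem hc, one_mul, map_mul]

/-- The ring generated by conjugations by elements of `H`. -/
def LamS : Subring (AddMonoid.End M) := Subring.closure (cj '' (H : Set G))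

/-- The same ring, as a type. -/
def Lam : Type := LamS

noncomputable instance instRingLam : Ring Lam := inferInstanceAs (Ring LamS)

noncomputable instance : CommRing Lam :=
  { instRingLam with
    mul_comm := fun a b => by
      have : IsMulCommutative LamS := Subring.isMulCommutative_closure (by
        rintro _ ⟨g, -, rfl⟩ _ ⟨h, -, rfl⟩
        exact cj_comm g h)
      exact this.is_comm.comm (α := LamS) a b }

/-- The underlying endomorphism. -/
noncomputable def Lam.val : Lam →+* AddMonoid.End M := LamS.subtype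

theorem Lam.ext {a b : Lam} (h : Lam.val a = Lam.val b) : a = b := Subtype.ext h

noncomputable instance : Module Lam M := Module.compHom M Lam.val

theorem Lam.smul_def (a : Lam) (m : M) : a • m = Lam.val a m := rfl

/-- Conjugation along a homomorphism into `H`. -/
noncomputable def sig {Γ : Type*} [Group Γ] (ψ : Γ →* G) (hψ : ∀ g, ψ g ∈ H) : Γ →* Lam where
  toFun g := (⟨cj (ψ g), Subring.subset_closure ⟨ψ g, hψ g, rfl⟩⟩ : LamS)
  map_one' := Lam.ext (by
    change cj (ψ 1) = 1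
    simp)
  map_mul' a b := Lam.ext (by
    change cj (ψ (a * b)) = cj (ψ a) * cj (ψ b)
    simp)

theorem sig_val {Γ : Type*} [Group Γ] (ψ : Γ →* G) (hψ : ∀ g, ψ g ∈ H) (g : Γ) :
    Lam.val (sig ψ hψ g) = cj (ψ g) := rfl

/-- Conjugation by elements of `H`. -/
noncomputable def sH : H →* Lam := sig H.subtype (fun g => g.2)

theorem sH_val (g : H) : Lam.val (sH g) = cj g := rfl

theorem smul_mem (a : Lam) (m : M) (hm : m.val ∈ H) : (a • m).val ∈ H := by
  obtain ⟨a, ha⟩ := a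
  change (a m).val ∈ H
  induction ha using Subring.closure_induction generalizing m with
  | mem z hz =>
    obtain ⟨g, hg, rfl⟩ := hz
    rw [cj_val]
    exact H.mul_mem (H.mul_mem hg hm) (H.inv_mem hg)
  | zero => exact H.one_mem
  | one => exact hm
  | add a b _ _ ha hb => exact H.mul_mem (ha m hm) (hb m hm)
  | neg a _ ha => exact H.inv_mem (ha m hm)
  | mul a b _ _ ha hb => exact ha (b m) (hb m hm)

/-- The images of the generators of `H`. -/
noncomputable def A (i : Fin 3) : Lam := sH ⟨Y i, Y_mem i⟩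

theorem A_unit (i : Fin 3) : IsUnit (A i) := (Group.isUnit _).map sH

/-- Laurent polynomials in the three generators. -/
def IsLaur (a : Lam) : Prop :=
  ∃ (k : ℕ) (P : MvPolynomial (Fin 3) ℤ),
    (A 0 * A 1 * A 2) ^ k * a = MvPolynomial.aeval ![A 0, A 1, A 2] P

theorem aeval_E (k : ℕ) :
    MvPolynomial.aeval ![A 0, A 1, A 2]
      ((MvPolynomial.X 0 * MvPolynomial.X 1 * MvPolynomial.X 2 : MvPolynomial (Fin 3) ℤ) ^ k)
      = (A 0 * A 1 * A 2) ^ k := by simp

theorem IsLaur.add {a b : Lam} (ha : IsLaur a) (hb : IsLaur b) : IsLaur (a + b) := by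
  obtain ⟨k, P, h⟩ := ha
  obtain ⟨l, Q, h'⟩ := hb
  refine ⟨k + l, (MvPolynomial.X 0 * MvPolynomial.X 1 * MvPolynomial.X 2) ^ l * P
    + (MvPolynomial.X 0 * MvPolynomial.X 1 * MvPolynomial.X 2) ^ k * Q, ?_⟩
  rw [map_add, map_mul, map_mul, aeval_E, aeval_E, ← h, ← h']
  ring

theorem IsLaur.mul {a b : Lam} (ha : IsLaur a) (hb : IsLaur b) : IsLaur (a * b) := by
  obtain ⟨k, P, h⟩ := ha
  obtain ⟨l, Q, h'⟩ := hb
  refine ⟨k + l, P * Q, ?_⟩
  rw [map_mul, ← h, ← h']
  ring

theorem IsLaur.neg {a : Lam} (ha : IsLaur a) : IsLaur (-a) := by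
  obtain ⟨k, P, h⟩ := ha
  refine ⟨k, -P, ?_⟩
  rw [map_neg, ← h]
  ring

theorem IsLaur.zero : IsLaur 0 := ⟨0, 0, by simp⟩
theorem IsLaur.one : IsLaur 1 := ⟨0, 1, by simp⟩

theorem liftY_mem (w : FreeGroup (Fin 3)) : FreeGroup.lift Y w ∈ H := ⟨w, rfl⟩

/-- The character of the free group on three generators. -/
noncomputable def s3 : FreeGroup (Fin 3) →* Lam := sig (FreeGroup.lift Y) liftY_mem

theorem s3_of (i : Fin 3) : s3 (FreeGroup.of i) = A i := Lam.ext (by
  rw [s3, sig_val, FreeGroup.lift_apply_of]; rfl)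

theorem s3_laur (w : FreeGroup (Fin 3)) : IsLaur (s3 w) := by
  induction w using FreeGroup.induction_on with
  | C1 => rw [map_one]; exact IsLaur.one
  | of i =>
    rw [s3_of]
    refine ⟨0, MvPolynomial.X i, ?_⟩
    fin_cases i <;> simp
  | inv_of i _ =>
    have h := rho_inv s3 (FreeGroup.of i)
    rw [s3_of] at h
    fin_cases i
    · refine ⟨1, MvPolynomial.X 1 * MvPolynomial.X 2, ?_⟩
      simp only [Fin.zero_eta] at h
      simp only [map_mul, MvPolynomial.aeval_X, Fin.zero_eta, Matrix.cons_val]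
      linear_combination (A 1 * A 2) * h
    · refine ⟨1, MvPolynomial.X 0 * MvPolynomial.X 2, ?_⟩
      simp only [Fin.mk_one] at h
      simp only [map_mul, MvPolynomial.aeval_X, Fin.mk_one, Matrix.cons_val]
      linear_combination (A 0 * A 2) * h
    · refine ⟨1, MvPolynomial.X 0 * MvPolynomial.X 1, ?_⟩
      simp only [Fin.reduceFinMk] at h
      simp only [map_mul, MvPolynomial.aeval_X, Fin.reduceFinMk, Matrix.cons_val]
      linear_combination (A 0 * A 1) * h
  | mul p q hp hq => rw [map_mul]; exact hp.mul hq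

/-- Fox derivatives. -/
theorem fox (w : FreeGroup (Fin 3)) : ∃ v0 v1 v2 : Lam, IsLaur v0 ∧ IsLaur v1 ∧ IsLaur v2 ∧
    ∀ d : FreeGroup (Fin 3) → M, IsDer s3 d →
      d w = v0 • d (FreeGroup.of 0) + v1 • d (FreeGroup.of 1) + v2 • d (FreeGroup.of 2) := by
  induction w using FreeGroup.induction_on with
  | C1 => exact ⟨0, 0, 0, IsLaur.zero, IsLaur.zero, IsLaur.zero, fun d hd => by simp [hd.one]⟩
  | of i =>
    fin_cases i
    · exact ⟨1, 0, 0, IsLaur.one, IsLaur.zero, IsLaur.zero, fun d _ => by simp⟩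
    · exact ⟨0, 1, 0, IsLaur.zero, IsLaur.one, IsLaur.zero, fun d _ => by simp⟩
    · exact ⟨0, 0, 1, IsLaur.zero, IsLaur.zero, IsLaur.one, fun d _ => by simp⟩
  | inv_of i hi =>
    obtain ⟨v0, v1, v2, h0, h1, h2, h⟩ := hi
    have hs := s3_laur (FreeGroup.of i)⁻¹
    refine ⟨-(s3 (FreeGroup.of i)⁻¹ * v0), -(s3 (FreeGroup.of i)⁻¹ * v1),
      -(s3 (FreeGroup.of i)⁻¹ * v2), (hs.mul h0).neg, (hs.mul h1).neg, (hs.mul h2).neg,
      fun d hd => ?_⟩
    rw [hd.inv, h d hd]
    module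
  | mul p q hp hq =>
    obtain ⟨v0, v1, v2, h0, h1, h2, h⟩ := hp
    obtain ⟨v0', v1', v2', h0', h1', h2', h'⟩ := hq
    have hs := s3_laur p
    refine ⟨v0 + s3 p * v0', v1 + s3 p * v1', v2 + s3 p * v2', h0.add (hs.mul h0'),
      h1.add (hs.mul h1'), h2.add (hs.mul h2'), fun d hd => ?_⟩
    rw [hd, h d hd, h' d hd]
    module

theorem alg_laur {v0 v1 v2 : Lam} (h0 : IsLaur v0) (h1 : IsLaur v1) (h2 : IsLaur v2) :
    ∃ n3 n4 n5 n6 : ℕ, ∃ s0 s1 s2 s3 s4 s5 : Lam,
      v0 * s0 + v1 * s1 + v2 *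
        (cform (A 0) (A 1) (A 2) (A 0 ^ n3) (A 0 ^ n4) (A 0 ^ n5) (A 0 ^ n6) s0 s1 s2 s3 s4 s5
          + 1 + s2) = 0 := by
  obtain ⟨k0, P0, e0⟩ := h0
  obtain ⟨k1, P1, e1⟩ := h1
  obtain ⟨k2, P2, e2⟩ := h2
  obtain ⟨n3, n4, n5, n6, s0, s1, s2, s3, s4, s5, h⟩ := alg_all (A 0) (A 1) (A 2) (A_unit 0)
    ![(MvPolynomial.X 0 * MvPolynomial.X 1 * MvPolynomial.X 2) ^ (k1 + k2) * P0,
      (MvPolynomial.X 0 * MvPolynomial.X 1 * MvPolynomial.X 2) ^ (k0 + k2) * P1,
      (MvPolynomial.X 0 * MvPolynomial.X 1 * MvPolynomial.X 2) ^ (k0 + k1) * P2]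
  refine ⟨n3, n4, n5, n6, s0, s1, s2, s3, s4, s5, ?_⟩
  simp only [Matrix.cons_val_zero, Matrix.cons_val_one, Matrix.cons_val] at h
  rw [map_mul, map_mul, map_mul, aeval_E, aeval_E, aeval_E, ← e0, ← e1, ← e2] at h
  have hu : IsUnit ((A 0 * A 1 * A 2) ^ (k0 + k1 + k2)) :=
    (((A_unit 0).mul (A_unit 1)).mul (A_unit 2)).pow _
  apply hu.mul_left_cancel
  linear_combination h

theorem diff_mem {Γ : Type*} [Group Γ] (p q : Γ →* G)
    (h : Abelianization.of.comp p = Abelianization.of.comp q) (g : Γ) :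
    p g * (q g)⁻¹ ∈ commutator G := by
  rw [← Abelianization.ker_of, MonoidHom.mem_ker, map_mul, map_inv]
  have := DFunLike.congr_fun h g
  simp only [MonoidHom.comp_apply] at this
  rw [this, mul_inv_cancel]

theorem diff_der {Γ : Type*} [Group Γ] (p q : Γ →* G) (hq : ∀ g, q g ∈ H)
    (h : ∀ g, p g * (q g)⁻¹ ∈ commutator G) :
    IsDer (sig q hq) (fun g => M.mk (p g * (q g)⁻¹) (h g)) := by
  intro a b
  apply M.ext
  rw [M.val_add, Lam.smul_def, sig_val, cj_val]
  simp only [M.val_mk, map_mul]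
  group

theorem of_eq_one {n : G} (hn : n ∈ commutator G) : Abelianization.of n = 1 := by
  rwa [← Abelianization.ker_of, MonoidHom.mem_ker] at hn

theorem exists_fix {h : G} (hh : h ∈ H) : ∃ φ : G →* G, (∀ g, φ g ∈ H) ∧ φ h = h := by
  obtain ⟨w, rfl⟩ := hh
  obtain ⟨v0, v1, v2, h0, h1, h2, hfox⟩ := fox w
  obtain ⟨n3, n4, n5, n6, s0, s1, s2, s3', s4, s5, halg⟩ := alg_laur h0 h1 h2
  obtain ⟨ψ, hψ⟩ := exists_hom G_metab ![x 0, x 1, y, x 0 ^ n3, x 0 ^ n4, x 0 ^ n5, x 0 ^ n6]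
  have hψH : ∀ g, ψ g ∈ H := mem_of_gen H ψ (by
    intro j
    rw [hψ]
    fin_cases j
    · exact x0_mem
    · exact x1_mem
    · exact y_mem
    all_goals exact H.pow_mem x0_mem _)
  have hψc : ψ (cw x) ∈ commutator G := by
    have := map_derivedSeries_le_derivedSeries ψ 1 (Subgroup.mem_map_of_mem _ (cw_mem x))
    exact this
  let nn : M := M.mk (ψ (cw x)) hψc
  let s : Fin 7 → Lam := ![s0, s1, s2, s3', s4, s5, 0]
  obtain ⟨φ, hφ⟩ := exists_hom G_metab (fun j => (s j • nn).val * ψ (x j))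
  have hφH : ∀ g, φ g ∈ H := mem_of_gen H φ (by
    intro j
    rw [hφ]
    exact H.mul_mem (smul_mem _ _ (hψH _)) (hψH _))
  refine ⟨φ, hφH, ?_⟩
  have hab : Abelianization.of.comp φ = Abelianization.of.comp ψ := hom_ext (by
    intro j
    simp only [MonoidHom.comp_apply, hφ, map_mul, of_eq_one (M.val_mem _), one_mul])
  have hD := diff_der φ ψ hψH (diff_mem φ ψ hab)
  have hDx : ∀ j, M.mk (φ (x j) * (ψ (x j))⁻¹) (diff_mem φ ψ hab (x j)) = s j • nn := by
    intro j
    apply M.ext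
    rw [M.val_mk, hφ, mul_inv_cancel_right]
  have hc := hD.cw x
  simp only [hDx] at hc
  have r0 : sig ψ hψH (x 0) = A 0 := Lam.ext (by rw [sig_val, hψ]; rfl)
  have r1 : sig ψ hψH (x 1) = A 1 := Lam.ext (by rw [sig_val, hψ]; rfl)
  have r2 : sig ψ hψH (x 2) = A 2 := Lam.ext (by rw [sig_val, hψ]; rfl)
  have hA0 : Lam.val (A 0) = cj (x 0) := rfl
  have r3 : sig ψ hψH (x 3) = A 0 ^ n3 := Lam.ext (by
    rw [sig_val, hψ, map_pow, hA0, ← map_pow]; rfl)
  have r4 : sig ψ hψH (x 4) = A 0 ^ n4 := Lam.ext (by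
    rw [sig_val, hψ, map_pow, hA0, ← map_pow]; rfl)
  have r5 : sig ψ hψH (x 5) = A 0 ^ n5 := Lam.ext (by
    rw [sig_val, hψ, map_pow, hA0, ← map_pow]; rfl)
  have r6 : sig ψ hψH (x 6) = A 0 ^ n6 := Lam.ext (by
    rw [sig_val, hψ, map_pow, hA0, ← map_pow]; rfl)
  rw [r0, r1, r2, r3, r4, r5, r6] at hc
  have hc' : M.mk (φ (cw x) * (ψ (cw x))⁻¹) (diff_mem φ ψ hab (cw x)) =
      cform (A 0) (A 1) (A 2) (A 0 ^ n3) (A 0 ^ n4) (A 0 ^ n5) (A 0 ^ n6) s0 s1 s2 s3' s4 s5
        • nn := by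
    rw [hc]
    simp only [cform, s, Matrix.cons_val_zero, Matrix.cons_val_one, Matrix.cons_val, smul_eq_mul]
    module
  have p0 : ψ (x 0) = x 0 := hψ 0
  have p1 : ψ (x 1) = x 1 := hψ 1
  have p2 : ψ (x 2) = y := hψ 2
  have hφc : φ (cw x) ∈ commutator G := by
    have := map_derivedSeries_le_derivedSeries φ 1 (Subgroup.mem_map_of_mem _ (cw_mem x))
    exact this
  have hab2 : Abelianization.of.comp (φ.comp (FreeGroup.lift Y))
      = Abelianization.of.comp (FreeGroup.lift Y) := by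
    apply FreeGroup.ext_hom
    intro i
    simp only [MonoidHom.comp_apply, FreeGroup.lift_apply_of]
    fin_cases i
    · change Abelianization.of (φ (x 0)) = Abelianization.of (x 0)
      rw [hφ, map_mul, of_eq_one (M.val_mem _), one_mul, p0]
    · change Abelianization.of (φ (x 1)) = Abelianization.of (x 1)
      rw [hφ, map_mul, of_eq_one (M.val_mem _), one_mul, p1]
    · change Abelianization.of (φ (cw x * x 2)) = Abelianization.of y
      rw [map_mul, hφ, map_mul, map_mul, of_eq_one (M.val_mem _), one_mul, p2, of_eq_one hφc,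
        one_mul]
  have hd := diff_der (φ.comp (FreeGroup.lift Y)) (FreeGroup.lift Y) liftY_mem
    (diff_mem _ _ hab2)
  have key := hfox _ hd
  have d0 : M.mk ((φ.comp (FreeGroup.lift Y)) (FreeGroup.of 0) *
      ((FreeGroup.lift Y) (FreeGroup.of 0))⁻¹) (diff_mem _ _ hab2 _) = s0 • nn := by
    apply M.ext
    rw [M.val_mk, MonoidHom.comp_apply, FreeGroup.lift_apply_of]
    change φ (x 0) * (x 0)⁻¹ = _
    rw [hφ, p0, mul_inv_cancel_right]; rfl
  have d1 : M.mk ((φ.comp (FreeGroup.lift Y)) (FreeGroup.of 1) *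
      ((FreeGroup.lift Y) (FreeGroup.of 1))⁻¹) (diff_mem _ _ hab2 _) = s1 • nn := by
    apply M.ext
    rw [M.val_mk, MonoidHom.comp_apply, FreeGroup.lift_apply_of]
    change φ (x 1) * (x 1)⁻¹ = _
    rw [hφ, p1, mul_inv_cancel_right]; rfl
  have d2 : M.mk ((φ.comp (FreeGroup.lift Y)) (FreeGroup.of 2) *
      ((FreeGroup.lift Y) (FreeGroup.of 2))⁻¹) (diff_mem _ _ hab2 _) =
      cform (A 0) (A 1) (A 2) (A 0 ^ n3) (A 0 ^ n4) (A 0 ^ n5) (A 0 ^ n6) s0 s1 s2 s3' s4 s5
        • nn + nn + s2 • nn := by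
    apply M.ext
    rw [← hc', M.val_mk, MonoidHom.comp_apply, FreeGroup.lift_apply_of, M.val_add, M.val_add,
      M.val_mk]
    change φ (cw x * x 2) * y⁻¹ = φ (cw x) * (ψ (cw x))⁻¹ * ψ (cw x) * (s2 • nn).val
    rw [map_mul, hφ, p2]
    change φ (cw x) * ((s2 • nn).val * y) * y⁻¹ = _
    group
  rw [d0, d1, d2] at key
  have hz : v0 • s0 • nn + v1 • s1 • nn + v2 •
      (cform (A 0) (A 1) (A 2) (A 0 ^ n3) (A 0 ^ n4) (A 0 ^ n5) (A 0 ^ n6) s0 s1 s2 s3' s4 s5
        • nn + nn + s2 • nn) = (v0 * s0 + v1 * s1 + v2 *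
        (cform (A 0) (A 1) (A 2) (A 0 ^ n3) (A 0 ^ n4) (A 0 ^ n5) (A 0 ^ n6) s0 s1 s2 s3' s4 s5
          + 1 + s2)) • nn := by module
  rw [hz, halg, zero_smul] at key
  have := congrArg M.val key
  rw [M.val_mk, M.val_zero, MonoidHom.comp_apply] at this
  exact mul_inv_eq_one.1 this

theorem verbally_closed (n : ℕ) (w : FreeGroup (Fin n)) (h : G) (hh : h ∈ H)
    (hx : ∃ z : Fin n → G, FreeGroup.lift z w = h) :
    ∃ z : Fin n → G, (∀ i, z i ∈ H) ∧ FreeGroup.lift z w = h := by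
  obtain ⟨z, hz⟩ := hx
  obtain ⟨φ, hφ, hfix⟩ := exists_fix hh
  refine ⟨fun i => φ (z i), fun i => hφ _, ?_⟩
  rw [← hfix, ← hz]
  exact (FreeGroup.lift_unique (φ.comp (FreeGroup.lift z)) (by simp)).symm

end Pool.Agent.H259Z.VC
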